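import Mathlib
import Pool.Agent.H.MP_084e97_mp.D

namespace Pool.Agent.Results.MP_084e97_mp.Stable

open MeasureTheory

/-- The Sturmian sequence: `false` (0) iff `n φ mod 1 < φ`. -/
noncomputable def St (φ : ℝ) (n : ℤ) : Bool := decide (φ ≤ Int.fract (n * φ))

/-- The shift. -/
def T (a : ℤ) (X : ℤ → Bool) : ℤ → Bool := fun i => X (i - a)

/-- Translation-invariant interaction, `Φ Λ` depending only on the spins in `Λ`. -/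
def IsInt (Φ : Finset ℤ → (ℤ → Bool) → ℝ) : Prop :=
  (∀ Λ X Y, (∀ i ∈ Λ, X i = Y i) → Φ Λ X = Φ Λ Y) ∧
    ∀ Λ a X, Φ (Λ.image (· + a)) (T a X) = Φ Λ X

/-- Finite range. -/
def FinR (Φ : Finset ℤ → (ℤ → Bool) → ℝ) : Prop :=
  ∃ r : ℤ, ∀ Λ, (∃ i ∈ Λ, ∃ j ∈ Λ, r < j - i) → ∀ X, Φ Λ X = 0

/-- Translation-invariant probability measure. -/
def Inv (μ : Measure (ℤ → Bool)) : Prop := IsProbabilityMeasure μ ∧ ∀ a, μ.map (T a) = μ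

/-- Ground state (measure). -/
def GS (Φ : Finset ℤ → (ℤ → Bool) → ℝ) (μ : Measure (ℤ → Bool)) : Prop :=
  Inv μ ∧ ∀ᵐ X ∂μ, ∀ Y, {i | Y i ≠ X i}.Finite → 0 ≤ ∑' Λ, (Φ Λ Y - Φ Λ X)

theorem result : ∃ φ : ℝ, Irrational φ ∧ 0 < φ ∧ φ < 1 ∧ ∃ ρ : Measure (ℤ → Bool),
    (∀ ν, (Inv ν ∧ ∀ᵐ X ∂ν, X ∈ closure (Set.range fun a => T a (St φ))) ↔ ν = ρ) ∧
    ∃ Φ, IsInt Φ ∧ (Summable fun Λ : {Λ : Finset ℤ // 0 ∈ Λ} => ⨆ X, |Φ Λ X|) ∧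
      (∀ X Y, {i | Y i ≠ X i}.Finite → Summable fun Λ => Φ Λ Y - Φ Λ X) ∧
      (∀ ν, GS Φ ν ↔ ν = ρ) ∧ ∀ Φ', IsInt Φ' → FinR Φ' → ∃ ε₀ : ℝ, 0 < ε₀ ∧
        ∀ ε, 0 < ε → ε < ε₀ → GS (fun Λ X => Φ Λ X + ε * Φ' Λ X) ρ :=
  Pool.Agent.H.MP_084e97_mp.main

end Pool.Agent.Results.MP_084e97_mp.Stable
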